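import Pool.Agent.Y121.AHS.Defs
import Pool.Agent.Y133.Half.PwDefs

/-!
# Absolutely Hodge classes on the powers of a variety: definitions
-/

universe u

namespace Pool.Agent.L5helper28.HE

open Pool.Agent.Y121.AHS Pool.Agent.H914
open Pool.Agent.Y133.Half (pw)

/-- The linear maps. -/
abbrev Lin (K A B : Type) [Field K] [Ring A] [Algebra K A] [Ring B] [Algebra K B] : Type :=
  A →ₗ[K] B

/-- The bilinear forms. -/
abbrev Form (K A : Type) [Field K] [Ring A] [Algebra K A] : Type := LinearMap.BilinForm K A

section

variable {K A B C : Type} [Field K] [Ring A] [Algebra K A] [Ring B] [Algebra K B] [Ring C]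
  [Algebra K C]

/-- The codimension of the subspace spanned by the elements with the property `S`. -/
noncomputable def codim (K : Type) {A : Type} [Field K] [Ring A] [Algebra K A] (S : A → Prop) : ℕ :=
  Module.finrank K (A ⧸ Submodule.span K {c | S c})

/-- The composition `f g`. -/
def comp (f g : Lin K A A) : Lin K A A := f ∘ₗ g

/-- The trace. -/
noncomputable def trace (f : Lin K A A) : K := LinearMap.trace K A f

/-- The map `f` is self-adjoint for the form `ψ`. -/
def SelfAdjoint (ψ : Form K A) (f : Lin K A A) : Prop := ∀ c d, ψ (f c) d = ψ c (f d)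

/-- The map `x ↦ s (c * p x)`. -/
def corr (p : A →ₐ[K] C) (s : C →ₗ[K] B) (c : C) (x : A) : B := s (c * p x)

variable [Algebra K ℂ]

/-- The element `∑ z i ⊗ a i` of the complexification. -/
noncomputable def el {m : ℕ} (z : Fin m → ℂ) (a : Fin m → A) : Ext K ℂ A :=
  ∑ i, extSm K ℂ (z i) (extEm K ℂ (a i))

/-- The number `∑ z i w j ψ (a i, b j)`: the value of the complexification of the bilinear form `ψ` on
the elements `∑ z i ⊗ a i` and `∑ w j ⊗ b j`. -/
noncomputable def form (ψ : Form K A) {m n : ℕ} (z : Fin m → ℂ) (a : Fin m → A) (w : Fin n → ℂ)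
    (b : Fin n → A) : ℂ :=
  ∑ i, ∑ j, z i * w j * algebraMap K ℂ (ψ (a i) (b j))

end

/-- An algebra `A` over the field `K`, relations `pq p q x` for the elements `x` of its complexification
(`x` is of type `(p, q)`) and a number `dim`: in the intended use `A = H(X, ℚ)` and `dim = dim X` for a
smooth projective complex variety `X`. -/
structure Alg (K : Type) [Field K] [Algebra K ℂ] where
  A : Type
  [ring : Ring A]
  [alg : Algebra K A]
  pq : ℤ → ℤ → Ext K ℂ A → Prop
  dim : ℕ

attribute [instance] Alg.ring Alg.alg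

variable {K : Type} [Field K] [Algebra K ℂ]

/-- The linear maps. -/
abbrev Maps (M : Alg K) : Type := Lin K M.A M.A

/-- The rational bilinear form `ψ` is a polarisation: only the zero element is of type
`(p, q)` unless `0 ≤ p, q ≤ dim`, the complex conjugation exchanges the types `(p, q)` and `(q, p)`, the
complexification of `ψ` vanishes on pairs of elements of types `(p, q)` and `(r, s) ≠ (q, p)`, and
`i ^ (p - q) ψ(x, x̄)` is a positive real number for all `x ≠ 0` of type `(p, q)`. -/
def IsPolarisation (M : Alg K) (ψ : Form K M.A) : Prop :=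
  (∀ p q x, M.pq p q x → x ≠ extSm K ℂ 0 x → 0 ≤ p ∧ p ≤ M.dim ∧ 0 ≤ q ∧ q ≤ M.dim) ∧
  ∀ (p q : ℤ) (m : ℕ) (z : Fin m → ℂ) (a : Fin m → M.A), M.pq p q (el z a) →
    M.pq q p (el (fun i => star (z i)) a) ∧
    (∀ (r s : ℤ) (n : ℕ) (w : Fin n → ℂ) (b : Fin n → M.A), M.pq r s (el w b) → (r ≠ q ∨ s ≠ p) →
      form ψ z a w b = 0) ∧
    (el z a ≠ extSm K ℂ 0 (el z a) →
      ∃ r : ℝ, 0 < r ∧ Complex.I ^ (p - q) * form ψ z a (fun i => star (z i)) a = r)

/-- The linear combination with the complex coefficients `c i` of the maps `f i` acts on the elements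
of type `(p, q)` of the complexification as multiplication by `p - q`. -/
def ActsAsHodge (M : Alg K) {m : ℕ} (c : Fin m → ℂ) (f : Fin m → Maps M) : Prop :=
  ∀ p q x, M.pq p q x →
    ∑ i, extSm K ℂ (c i) (extMap K ℂ (f i) x) = extSm K ℂ ((p - q : ℤ) : ℂ) x

/-- The map `f` is an endomorphism of the Hodge structure. -/
def IsEndo {M : Alg K} (f : Maps M) : Prop := ∀ p q x, M.pq p q x → M.pq p q (extMap K ℂ f x)

/-- The map `f` belongs to the centre of the algebra of the endomorphisms of the Hodge structure. -/
def IsCentral {M : Alg K} (f : Maps M) : Prop :=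
  IsEndo f ∧ ∀ g : Maps M, IsEndo g → comp f g = comp g f

/-- The elements of the centre are self-adjoint for the form `ψ` (the centre is a product of totally
real fields). -/
def TotallyReal (M : Alg K) (ψ : Form K M.A) : Prop :=
  ∀ f : Maps M, IsCentral f → SelfAdjoint ψ f

/-- The sum of all `(p - q) Tr(f | H^(p,q))` is zero for all elements `f` of the centre: if the complex
linear combination of maps `g i` with coefficients `c i` acts on the elements of type `(p, q)` as the
multiplication by `p - q`, then `∑ c i Tr(f g i) = 0`. (It means that the Hodge group is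
semisimple.) -/
def Semisimple (M : Alg K) : Prop :=
  ∀ f : Maps M, IsCentral f → ∀ (m : ℕ) (c : Fin m → ℂ) (g : Fin m → Maps M), ActsAsHodge M c g →
    ∑ i, c i * algebraMap K ℂ (trace (comp f (g i))) = 0

variable {k : Type u} [Field k] {𝒱 : VarClass k} {ops : CycleOps 𝒱} (T : HodgeTheory ops)

/-- The cohomology of `X`. -/
noncomputable def coh (X : 𝒱.Obj) : Alg T.W.K where
  A := T.W.H X
  pq := IsType T.pq
  dim := X.dim

/-- The transcendental Betti number of `X`: the dimension of the cohomology of `X` modulo the space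
spanned by the Hodge classes. -/
noncomputable def trans (X : 𝒱.Obj) : ℕ := codim T.W.K fun c => ∃ j, IsHodge T X j c

variable {T} (D : Conjugates T)

/-- All Hodge classes on `X` are absolutely Hodge. -/
def AllAbsolute (X : 𝒱.Obj) : Prop := ∀ j c, IsHodge T X j c → IsAbsHodge D X j c

/-- The correspondence `H(X) → H(Y)`, `x ↦ pr₂_* (c · pr₁^* x)`, given by the class `c` on
`X × Y`. -/
noncomputable def act {X Y : 𝒱.Obj} (c : T.W.H (X.prod Y)) (x : T.W.H X) : T.W.H Y :=
  corr (T.W.map (VarClass.Obj.fst X Y)) (T.W.push (VarClass.Obj.snd X Y)) c x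

/-- The cohomology of `Y` comes from powers of `X` by absolutely Hodge correspondences: every element
of `H(Y)` is the sum of its images under finitely many compositions `H(Y) → H(X ^ (m + 1)) → H(Y)` of
correspondences given by absolutely Hodge classes. (This holds if the motive of `Y` for absolute Hodge
cycles is a direct summand of a sum of Tate twists of motives of powers of `X`.) -/
def FromPowers (X Y : 𝒱.Obj) : Prop :=
  ∃ (r : ℕ) (m a b : Fin r → ℕ) (u : ∀ i, T.W.H (Y.prod (pw X (m i))))
    (v : ∀ i, T.W.H ((pw X (m i)).prod Y)),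
    (∀ i, IsAbsHodge D _ (a i) (u i) ∧ IsAbsHodge D _ (b i) (v i)) ∧
      ∀ y : T.W.H Y, ∑ i, act (v i) (act (u i) y) = y

end Pool.Agent.L5helper28.HE
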