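import Pool.Agent.Y121.AHS.CDefs
import Pool.Agent.L5helper28.HE.Defs

/-!
# Absolutely Hodge classes (all components) on the powers of a variety: definitions
-/

universe u

namespace Pool.Agent.L5helper28.HE

open Pool.Agent.Y121.AHS Pool.Agent.H914
open Pool.Agent.Y133.Half (pw)

variable {k : Type u} [Field k] {𝒱 : VarClass k} {ops : CycleOps 𝒱} {T : HodgeTheory ops}
  (D : Full.Conjugates T)

/-- All Hodge classes on `X` are absolutely Hodge. -/
def AllAbs (X : 𝒱.Obj) : Prop := ∀ j c, IsHodge T X j c → Full.IsAbsHodge D X j c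

/-- The cohomology of `Y` comes from powers of `X` by absolutely Hodge correspondences: every element
of `H(Y)` is the sum of its images under finitely many compositions `H(Y) → H(X ^ (m + 1)) → H(Y)` of
correspondences given by absolutely Hodge classes. (This holds if the motive of `Y` for absolute Hodge
cycles is a direct summand of a sum of Tate twists of motives of powers of `X`.) -/
def FromPws (X Y : 𝒱.Obj) : Prop :=
  ∃ (r : ℕ) (m a b : Fin r → ℕ) (u : ∀ i, T.W.H (Y.prod (pw X (m i))))
    (v : ∀ i, T.W.H ((pw X (m i)).prod Y)),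
    (∀ i, Full.IsAbsHodge D _ (a i) (u i) ∧ Full.IsAbsHodge D _ (b i) (v i)) ∧
      ∀ y : T.W.H Y, ∑ i, act (v i) (act (u i) y) = y
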