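import Pool.Agent.L5helper28.HE.Main
import Pool.Agent.Y121.AHS.Conv2
import Pool.Agent.L5helper28.HE.FullDefs

/-!
# One explicit power decides the equality of Hodge classes and absolute Hodge classes
-/

set_option autoImplicit false
set_option linter.unusedSectionVars false

open CategoryTheory AlgebraicGeometry TensorProduct

universe u v

namespace Pool.Agent.L5helper28.HE.Full

open Module
open Pool.Agent.H914 Pool.Agent.H914.VarClass Pool.Agent.H914.VarClass.Obj
  Pool.Agent.H914.WeilCohomology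
open Pool.Agent.Y121 Pool.Agent.Y121.AHS Pool.Agent.N996 Pool.Agent.N996.FP
open Pool.Agent.Y133.Half (pw ClassPred Sys)

noncomputable section

variable {k : Type u} [Field k] {𝒱 : VarClass k} {ops : CycleOps 𝒱} {T : HodgeTheory ops}
  {X Y : 𝒱.Obj} (D : AHS.Full.Conjugates T)

theorem allAbs_iff : AllAbs D X ↔
    (AH.hodgePred (toH T)).sys.C X ≤ (AH.absPred (AHS.Full.toD D)).sys.C X := by
  constructor
  · intro h c hc
    refine ClassPred.sp_ind (Q := AH.hodgePred (toH T))
      (q := fun c => c ∈ (AH.absPred (AHS.Full.toD D)).sp X) ?_ (zero_mem _)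
      (fun a b ha hb => add_mem ha hb) hc
    intro j x hx
    exact ClassPred.sp_of (AHS.Full.isAbsHodge_iff.2 (h j x hx))
  · intro h j c hc
    have h1 : c ∈ (AH.absPred (AHS.Full.toD D)).sp X :=
      h (ClassPred.sp_of (Q := AH.hodgePred (toH T)) hc)
    have h2 := ClassPred.sp_proj h1 j
    have h3 : H914.proj (T.W.isInternal X) (2 * j) c = c := H914.proj_same _ hc.1
    have h4 : (AH.absPred (AHS.Full.toD D)).P X j (H914.proj (T.W.isInternal X) (2 * j) c) := h2
    rw [h3] at h4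
    exact AHS.Full.isAbsHodge_iff.1 h4

theorem abs_le (X : 𝒱.Obj) :
    (AH.absPred (AHS.Full.toD D)).sys.C X ≤ (AH.hodgePred (toH T)).sys.C X := by
  intro c hc
  refine ClassPred.sp_ind (Q := AH.absPred (AHS.Full.toD D))
    (q := fun c => c ∈ (AH.hodgePred (toH T)).sp X) ?_ (zero_mem _)
    (fun a b ha hb => add_mem ha hb) hc
  intro j x hx
  exact ClassPred.sp_of (Q := AH.hodgePred (toH T)) (AHS.Full.isAbsHodge_iff.1 hx).1

/-- **Powers.** -/
theorem powers {ψ : RForm T.W X} (hψ : FP.IsPolarisation T X ψ) {N : ℕ}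
    (hN : AdmT T X ψ (transBetti T X) N) (h : AllAbs D (pw X (N - 1))) (n : ℕ) :
    AllAbs D (pw X n) := by
  have h1 := admT_c hψ hN ((AH.absPred (AHS.Full.toD D)).sys.csys X)
    (fun n => abs_le D (pw X n)) ((allAbs_iff D).1 h) n
  exact (allAbs_iff D).2 h1

/-- **The varieties whose cohomology comes from powers of `X`.** -/
theorem of_powers (h : ∀ n, AllAbs D (pw X n)) (hY : FromPws D X Y) :
    AllAbs D Y := by
  obtain ⟨r, m, a, b, u, v, huv, hid⟩ := hY
  rw [allAbs_iff]
  intro c hc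
  rw [← hid c]
  refine Submodule.sum_mem _ fun i _ => ?_
  have hu : u i ∈ (AH.absPred (AHS.Full.toD D)).sys.C (Y.prod (pw X (m i))) :=
    ClassPred.sp_of (Q := AH.absPred (AHS.Full.toD D)) (AHS.Full.isAbsHodge_iff.2 (huv i).1)
  have hv : v i ∈ (AH.absPred (AHS.Full.toD D)).sys.C ((pw X (m i)).prod Y) :=
    ClassPred.sp_of (Q := AH.absPred (AHS.Full.toD D)) (AHS.Full.isAbsHodge_iff.2 (huv i).2)
  have h1 : HE.act (u i) c ∈ (AH.hodgePred (toH T)).sys.C (pw X (m i)) :=
    act_mem (AH.hodgePred (toH T)).sys (abs_le D _ hu) hc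
  exact act_mem (AH.absPred (AHS.Full.toD D)).sys hv ((allAbs_iff D).1 (h (m i)) h1)

/-- **The theorem.** -/
theorem main (ψ : Form T.W.K (coh T X).A) (hψ : HE.IsPolarisation (coh T X) ψ) (N : ℕ)
    (hN : (TotallyReal (coh T X) ψ ∧ N = max 4 (trans T X)) ∨
      (Semisimple (coh T X) ∧ N = max 4 (trans T X ^ 2 / 4)) ∨
        N = max 4 ((X.dim * trans T X) ^ trans T X))
    (h : AllAbs D (pw X (N - 1))) :
    (∀ n, AllAbs D (pw X n)) ∧ ∀ Y, FromPws D X Y → AllAbs D Y := by
  have h1 := powers D (polarisation_of hψ) (admT_of hN) h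
  exact ⟨h1, fun Y hY => of_powers D h1 hY⟩

end

end Pool.Agent.L5helper28.HE.Full
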