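import Pool.Agent.N996.FP.FinT
import Pool.Agent.Y121.AHS.Conv
import Pool.Agent.L5helper28.HE.Defs
import Pool.Agent.L5helper28.HD.Bridge

/-!
# One explicit power decides Deligne's conjecture for all powers
-/

set_option autoImplicit false
set_option linter.unusedSectionVars false

open CategoryTheory AlgebraicGeometry TensorProduct

universe u v

namespace Pool.Agent.L5helper28.HE

open Module
open Pool.Agent.H914 Pool.Agent.H914.VarClass Pool.Agent.H914.VarClass.Obj
  Pool.Agent.H914.WeilCohomology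
open Pool.Agent.Y121 Pool.Agent.Y121.AHS Pool.Agent.N996 Pool.Agent.N996.FP
open Pool.Agent.Y133.Half (pw ClassPred Sys)
open Pool.Agent.L5helper28.IF (hop hop_pq hop_ind CV)

noncomputable section

variable {k : Type u} [Field k] {𝒱 : VarClass k} {ops : CycleOps 𝒱} {T : HodgeTheory ops}
  {X Y : 𝒱.Obj}

/-! ### The definitions -/

theorem ne_iff {K A : Type} [Field K] [Algebra K ℂ] [Ring A] [Algebra K A] (x : Ext K ℂ A) :
    x ≠ extSm K ℂ 0 x ↔ x ≠ 0 := by
  have h : extSm K ℂ 0 x = 0 := zero_smul ℂ x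
  rw [h]

theorem polarisation_of {ψ : LinearMap.BilinForm T.W.K (T.W.H X)}
    (h : HE.IsPolarisation (coh T X) ψ) : FP.IsPolarisation T X ψ := by
  obtain ⟨h1, h2⟩ := h
  refine ⟨?_, ?_, ?_, ?_⟩
  · intro p q x hx h0
    exact h1 p q x hx ((ne_iff x).2 h0)
  · intro p q x hx
    obtain ⟨m, z, a, rfl⟩ := HD.exists_el (K := T.W.K) (A := T.W.H X) x
    have h3 := (h2 p q m z a hx).1
    have h4 : conjH T (el (K := T.W.K) (A := T.W.H X) z a) =
      el (K := T.W.K) (A := T.W.H X) (fun i => star (z i)) a :=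
      HD.conj_el (K := T.W.K) (A := T.W.H X) T.rat z a
    exact (congrArg (fun t => IsType T.pq q p t) h4).mpr h3
  · intro p q r s x y hx hy hn
    obtain ⟨m, z, a, rfl⟩ := HD.exists_el (K := T.W.K) (A := T.W.H X) x
    obtain ⟨n, w, b, rfl⟩ := HD.exists_el (K := T.W.K) (A := T.W.H X) y
    exact (HD.bil_el (K := T.W.K) (A := T.W.H X) ψ z a w b).trans
      ((h2 p q m z a hx).2.1 r s n w b hy hn)
  · intro p q x hx h0
    obtain ⟨m, z, a, rfl⟩ := HD.exists_el (K := T.W.K) (A := T.W.H X) x
    obtain ⟨r, hr, h3⟩ := (h2 p q m z a hx).2.2 ((ne_iff _).2 h0)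
    refine ⟨r, hr, ?_⟩
    rw [← h3]
    refine congrArg (fun t => Complex.I ^ (p - q) * t) ?_
    have h4 : conjH T (el (K := T.W.K) (A := T.W.H X) z a) =
      el (K := T.W.K) (A := T.W.H X) (fun i => star (z i)) a :=
      HD.conj_el (K := T.W.K) (A := T.W.H X) T.rat z a
    have h5 : (HD.el (K := T.W.K) (A := T.W.H X) z a) = el (K := T.W.K) (A := T.W.H X) z a := rfl
    rw [h5, h4]
    exact HD.bil_el (K := T.W.K) (A := T.W.H X) ψ z a (fun i => star (z i)) a

theorem central_of {f : Maps (coh T X)} (h : IsCentralEndo (T.pq X) f) : IsCentral f :=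
  ⟨h.1, fun g hg => LinearMap.ext fun c => h.2 g hg c⟩

/-- complex linear maps are combinations of rational linear maps -/
theorem exists_comb {K A : Type} [Field K] [Algebra K ℂ] [AddCommGroup A] [Module K A]
    [FiniteDimensional K A] (h : Module.End ℂ (ℂ ⊗[K] A)) :
    ∃ (m : ℕ) (c : Fin m → ℂ) (g : Fin m → Module.End K A),
      ∀ x, ∑ i, c i • (g i).baseChange ℂ x = h x := by
  classical
  let e := Module.finBasis K A
  let eC := Algebra.TensorProduct.basis ℂ e
  let n := finrank K A
  let c : Fin n × Fin n → ℂ := fun p => eC.repr (h (1 ⊗ₜ e p.2)) p.1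
  let g : Fin n × Fin n → Module.End K A := fun p => (e.coord p.2).smulRight (e p.1)
  have key : ∀ x, ∑ p, c p • (g p).baseChange ℂ x = h x := by
    intro x
    have h1 : (∑ p, c p • (g p).baseChange ℂ : Module.End ℂ (ℂ ⊗[K] A)) = h := by
      refine eC.ext fun j => ?_
      rw [LinearMap.sum_apply, Fintype.sum_prod_type, Algebra.TensorProduct.basis_apply]
      have h2 : ∀ a b : Fin n, (c (a, b) • (g (a, b)).baseChange ℂ) ((1 : ℂ) ⊗ₜ[K] e j) =
          if b = j then c (a, b) • ((1 : ℂ) ⊗ₜ[K] e a) else 0 := by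
        intro a b
        rw [LinearMap.smul_apply, LinearMap.baseChange_tmul, LinearMap.smulRight_apply,
          Basis.coord_apply, Basis.repr_self, Finsupp.single_apply]
        by_cases hb : b = j
        · rw [if_pos hb, if_pos hb.symm, one_smul]
        · rw [if_neg hb, if_neg (Ne.symm hb), zero_smul, TensorProduct.tmul_zero, smul_zero]
      rw [Finset.sum_congr rfl fun a _ => Finset.sum_congr rfl fun b _ => h2 a b]
      rw [Finset.sum_congr rfl fun a _ => Finset.sum_ite_eq' Finset.univ j _]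
      simp only [Finset.mem_univ, if_true]
      conv_rhs => rw [← eC.sum_repr (h ((1 : ℂ) ⊗ₜ[K] e j))]
      refine Finset.sum_congr rfl fun a _ => ?_
      rw [Algebra.TensorProduct.basis_apply]
    have h3 := LinearMap.congr_fun h1 x
    rw [LinearMap.sum_apply] at h3
    exact h3
  let φ := (Fintype.equivFin (Fin n × Fin n)).symm
  refine ⟨_, fun i => c (φ i), fun i => g (φ i), fun x => ?_⟩
  rw [← key x]
  exact Equiv.sum_comp φ (fun p => c p • (g p).baseChange ℂ x)

theorem traceFree_of (h : Semisimple (coh T X)) : TraceFreeCentre T X := by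
  intro f hf F hF
  obtain ⟨m, c, g, hg⟩ := exists_comb (K := T.W.K) (A := T.W.H X) (hop T X)
  have h1 := h f (central_of hf) m c g (by
    intro p q x hx
    change ∑ i, c i • (g i).baseChange ℂ (show CV T.W X from x) = _
    rw [hg]
    exact hop_pq hx)
  have h2 : (show Module.End ℂ (CV T.W X) from F) =
      ∑ i, c i • ((show Module.End T.W.K (T.W.H X) from f) * g i).baseChange ℂ := by
    refine LinearMap.ext fun x => ?_
    refine hop_ind (P := fun x => (show Module.End ℂ (CV T.W X) from F) x =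
      (∑ i, c i • ((show Module.End T.W.K (T.W.H X) from f) * g i).baseChange ℂ) x) ?_ ?_ ?_ x
    · intro p q x hx
      have h3 : (∑ i, c i • ((show Module.End T.W.K (T.W.H X) from f) * g i).baseChange ℂ) x =
          (show Module.End T.W.K (T.W.H X) from f).baseChange ℂ (∑ i, c i • (g i).baseChange ℂ x) := by
        rw [LinearMap.sum_apply, map_sum]
        refine Finset.sum_congr rfl fun i _ => ?_
        rw [map_smul, LinearMap.smul_apply]
        congr 1
        exact LinearMap.congr_fun (LinearMap.baseChange_comp (A := ℂ) (g i)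
          (show Module.End T.W.K (T.W.H X) from f)) x
      rw [h3, hg, hop_pq hx, map_smul]
      exact hF p q x hx
    · intro a b ha hb
      rw [map_add, map_add, ha, hb]
    · rw [map_zero, map_zero]
  change LinearMap.trace ℂ (CV T.W X) (show Module.End ℂ (CV T.W X) from F) = 0
  rw [h2, map_sum, ← h1]
  refine Finset.sum_congr rfl fun i _ => ?_
  rw [map_smul, LinearMap.trace_baseChange, smul_eq_mul]
  rfl

theorem admT_of {ψ : Form T.W.K (T.W.H X)} {t N : ℕ}
    (hN : (TotallyReal (coh T X) ψ ∧ N = max 4 t) ∨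
      (Semisimple (coh T X) ∧ N = max 4 (t ^ 2 / 4)) ∨ N = max 4 ((X.dim * t) ^ t)) :
    AdmT T X ψ t N := by
  rcases hN with ⟨h1, h2⟩ | ⟨h1, h2⟩ | h
  · exact .inl ⟨fun f hf => h1 f (central_of hf), h2⟩
  · exact .inr (.inl ⟨traceFree_of h1, h2⟩)
  · exact .inr (.inr h)

variable (D : Conjugates T)

theorem allAbs_iff : AllAbsolute D X ↔
    (AH.hodgePred (toH T)).sys.C X ≤ (AH.absPred (toD D)).sys.C X := by
  constructor
  · intro h c hc
    refine ClassPred.sp_ind (Q := AH.hodgePred (toH T))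
      (q := fun c => c ∈ (AH.absPred (toD D)).sp X) ?_ (zero_mem _)
      (fun a b ha hb => add_mem ha hb) hc
    intro j x hx
    exact ClassPred.sp_of (isAbsHodge_iff.2 (h j x hx))
  · intro h j c hc
    have h1 : c ∈ (AH.absPred (toD D)).sp X := h (ClassPred.sp_of (Q := AH.hodgePred (toH T)) hc)
    have h2 := ClassPred.sp_proj h1 j
    have h3 : H914.proj (T.W.isInternal X) (2 * j) c = c := H914.proj_same _ hc.1
    have h4 : (AH.absPred (toD D)).P X j (H914.proj (T.W.isInternal X) (2 * j) c) := h2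
    rw [h3] at h4
    exact isAbsHodge_iff.1 h4

theorem abs_le (X : 𝒱.Obj) :
    (AH.absPred (toD D)).sys.C X ≤ (AH.hodgePred (toH T)).sys.C X := by
  intro c hc
  refine ClassPred.sp_ind (Q := AH.absPred (toD D))
    (q := fun c => c ∈ (AH.hodgePred (toH T)).sp X) ?_ (zero_mem _)
    (fun a b ha hb => add_mem ha hb) hc
  intro j x hx
  exact ClassPred.sp_of (Q := AH.hodgePred (toH T)) (isAbsHodge_iff.1 hx).1

/-- **Powers.** -/
theorem powers {ψ : RForm T.W X} (hψ : FP.IsPolarisation T X ψ) {N : ℕ}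
    (hN : AdmT T X ψ (transBetti T X) N) (h : AllAbsolute D (pw X (N - 1))) (n : ℕ) :
    AllAbsolute D (pw X n) := by
  have h1 := admT_c hψ hN ((AH.absPred (toD D)).sys.csys X)
    (fun n => abs_le D (pw X n)) ((allAbs_iff D).1 h) n
  exact (allAbs_iff D).2 h1

theorem act_mem (S : Sys T.W) {A B : 𝒱.Obj} {c : T.W.H (A.prod B)} (hc : c ∈ S.C (A.prod B))
    {x : T.W.H A} (hx : x ∈ S.C A) : HE.act c x ∈ S.C B :=
  S.push _ (S.mul hc (S.map _ hx))

/-- **The varieties whose cohomology comes from powers of `X`.** -/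
theorem of_powers (h : ∀ n, AllAbsolute D (pw X n)) (hY : HE.FromPowers D X Y) :
    AllAbsolute D Y := by
  obtain ⟨r, m, a, b, u, v, huv, hid⟩ := hY
  rw [allAbs_iff]
  intro c hc
  rw [← hid c]
  refine Submodule.sum_mem _ fun i _ => ?_
  have hu : u i ∈ (AH.absPred (toD D)).sys.C (Y.prod (pw X (m i))) :=
    ClassPred.sp_of (Q := AH.absPred (toD D)) (isAbsHodge_iff.2 (huv i).1)
  have hv : v i ∈ (AH.absPred (toD D)).sys.C ((pw X (m i)).prod Y) :=
    ClassPred.sp_of (Q := AH.absPred (toD D)) (isAbsHodge_iff.2 (huv i).2)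
  have h1 : HE.act (u i) c ∈ (AH.hodgePred (toH T)).sys.C (pw X (m i)) :=
    act_mem (AH.hodgePred (toH T)).sys (abs_le D _ hu) hc
  exact act_mem (AH.absPred (toD D)).sys hv ((allAbs_iff D).1 (h (m i)) h1)

end

end Pool.Agent.L5helper28.HE
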